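import Pool.Agent.Helper54.SP.StmtsP

/-!
Triples of corners of one gate with three different letters.
-/

namespace Pool.Agent.Helper54.SP

theorem gt1_mul (u v p q : ℝ) (hu : |u| ≤ p) (hv : |v| ≤ q) : |u * v| ≤ p * q := by
  rw [abs_mul]
  exact mul_le_mul hu hv (abs_nonneg v) (le_trans (abs_nonneg u) hu)

theorem gt1_sub (u v p : ℝ) (hu : |u| ≤ p) (hv : |v| ≤ p) : |u - v| ≤ 2 * p := by
  rw [abs_le] at *
  constructor <;> linarith [hu.1, hu.2, hv.1, hv.2]

theorem gt1_pert (e x1 x2 x3 y1 y2 y3 a1 a2 a3 b1 b2 b3 : ℝ) (he : 0 < e) (he1 : e ≤ 1 / 100000)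
    (hx2 : |x2 - x1| ≤ 1 / 100) (hx3 : |x3 - x1| ≤ 1 / 100)
    (hy2 : |y2 - y1| ≤ 1 / 50) (hy3 : |y3 - y1| ≤ 1 / 50)
    (ha1 : |a1| ≤ 31 * e) (ha2 : |a2| ≤ 31 * e) (ha3 : |a3| ≤ 31 * e)
    (hb1 : |b1| ≤ 124 * e) (hb2 : |b2| ≤ 124 * e) (hb3 : |b3| ≤ 124 * e) :
    |((x2 + a2 - (x1 + a1)) * (y3 + b3 - (y1 + b1)) -
      (x3 + a3 - (x1 + a1)) * (y2 + b2 - (y1 + b1))) -
      ((x2 - x1) * (y3 - y1) - (x3 - x1) * (y2 - y1))| ≤ 9 * e := by
  have A2 := gt1_sub _ _ _ ha2 ha1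
  have A3 := gt1_sub _ _ _ ha3 ha1
  have B2 := gt1_sub _ _ _ hb2 hb1
  have B3 := gt1_sub _ _ _ hb3 hb1
  have m1 := gt1_mul _ _ _ _ hx2 B3
  have m2 := gt1_mul _ _ _ _ A2 hy3
  have m3 := gt1_mul _ _ _ _ A2 B3
  have m4 := gt1_mul _ _ _ _ hx3 B2
  have m5 := gt1_mul _ _ _ _ A3 hy2
  have m6 := gt1_mul _ _ _ _ A3 B2
  have hee : e * e ≤ 1 / 100000 * e := mul_le_mul_of_nonneg_right he1 he.le
  have hid : ((x2 + a2 - (x1 + a1)) * (y3 + b3 - (y1 + b1)) -
      (x3 + a3 - (x1 + a1)) * (y2 + b2 - (y1 + b1))) -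
      ((x2 - x1) * (y3 - y1) - (x3 - x1) * (y2 - y1)) =
      (x2 - x1) * (b3 - b1) + (a2 - a1) * (y3 - y1) + (a2 - a1) * (b3 - b1) -
      ((x3 - x1) * (b2 - b1) + (a3 - a1) * (y2 - y1) + (a3 - a1) * (b2 - b1)) := by ring
  rw [hid]
  rw [abs_le] at m1 m2 m3 m4 m5 m6 ⊢
  constructor
  · nlinarith [m1.1, m2.1, m3.1, m4.2, m5.2, m6.2]
  · nlinarith [m1.2, m2.2, m3.2, m4.1, m5.1, m6.1]

/-- nominal abscissa -/
noncomputable def gt1_nx (r : ℝ) (l : ℕ) : ℝ := if l = 0 ∨ l = 2 then 1 else r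

/-- nominal ordinate -/
noncomputable def gt1_ny (U U' A A' : ℝ) (l : ℕ) : ℝ :=
  if l = 0 then U else if l = 1 then U' else if l = 2 then A else A'

theorem gt1_x (U U' e : ℝ) (he : 0 < e) (t : ℕ) (ht : t < 8) :
    ∃ a, cox U U' e t = gt1_nx (U' / U) (t / 2) + a ∧ |a| ≤ 31 * e := by
  refine ⟨cox U U' e t - gt1_nx (U' / U) (t / 2), by ring, ?_⟩
  rw [abs_le]
  interval_cases t <;> simp [cox, gt1_nx] <;> first | (constructor <;> linarith) | linarith

theorem gt1_y (k : Bool) (U U' A A' e : ℝ) (he : 0 < e) (t : ℕ) (ht : t < 8) :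
    ∃ a, coy k U U' A A' e t = gt1_ny U U' A A' (t / 2) + a ∧ |a| ≤ 124 * e := by
  refine ⟨coy k U U' A A' e t - gt1_ny U U' A A' (t / 2), by ring, ?_⟩
  rw [abs_le]
  interval_cases t <;> cases k <;> simp [coy, mul8, gt1_ny] <;> first | (constructor <;> linarith) | linarith

/-- the nominal triples -/
theorem gt1_nom (U U' A A' r : ℝ) (b : Bool) (hr : 1 < r) (hU : U' = r * U) (hA : A' = r * A)
    (hb : b = true ↔ U < A) (P Q R : ℕ) (h1 : P < Q) (h2 : Q < R) (h3 : R < 4) :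
    (r - 1) * |A - U| ≤ sb (tb P Q R b) *
      ((gt1_nx r Q - gt1_nx r P) * (gt1_ny U U' A A' R - gt1_ny U U' A A' P) -
        (gt1_nx r R - gt1_nx r P) * (gt1_ny U U' A A' Q - gt1_ny U U' A A' P)) := by
  subst hU hA
  have key : ∀ s : ℝ, s * (A - U) = |A - U| →
      (r - 1) * |A - U| ≤ (r - 1) * (s * (A - U)) ∧
      (r - 1) * |A - U| ≤ (r - 1) * r * (s * (A - U)) := by
    intro s hs
    rw [hs]
    refine ⟨le_refl _, ?_⟩
    have : 0 ≤ (r - 1) * |A - U| * (r - 1) :=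
      mul_nonneg (mul_nonneg (by linarith) (abs_nonneg _)) (by linarith)
    linarith
  have hs : sb b * (A - U) = |A - U| := by
    cases b
    · have : ¬ U < A := fun h => by simpa using hb.2 h
      rw [abs_of_nonpos (by linarith)]
      simp [sb]
    · rw [abs_of_pos (by linarith [hb.1 rfl])]
      simp [sb]
  obtain ⟨k1, k2⟩ := key _ hs
  have hn : sb (!b) = - sb b := by cases b <;> simp [sb]
  interval_cases R
  · omega
  · omega
  · have hQ : Q = 1 := by omega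
    have hP : P = 0 := by omega
    subst hQ hP
    have ht : tb 0 1 2 b = b := by simp [tb]
    rw [ht]
    simp only [gt1_nx, gt1_ny]
    norm_num
    linarith
  · interval_cases Q
    · omega
    · have hP : P = 0 := by omega
      subst hP
      have ht : tb 0 1 3 b = b := by simp [tb]
      rw [ht]
      simp only [gt1_nx, gt1_ny]
      norm_num
      linarith
    · interval_cases P
      · have ht : tb 0 2 3 b = !b := by simp [tb]
        rw [ht, hn]
        simp only [gt1_nx, gt1_ny]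
        norm_num
        linarith
      · have ht : tb 1 2 3 b = !b := by simp [tb]
        rw [ht, hn]
        simp only [gt1_nx, gt1_ny]
        norm_num
        linarith

theorem gt1_dx (r : ℝ) (hr : 1 < r) (hr2 : r - 1 ≤ 1 / 100) (P Q : ℕ) :
    |gt1_nx r Q - gt1_nx r P| ≤ 1 / 100 := by
  unfold gt1_nx
  rw [abs_le]
  split_ifs <;> constructor <;> linarith

theorem gt1_dy (U U' A A' c : ℝ) (h1 : c < U) (h2 : U < c + 1 / 100) (h3 : c < U')
    (h4 : U' < c + 1 / 100) (h5 : c < A) (h6 : A < c + 1 / 100) (h7 : c < A')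
    (h8 : A' < c + 1 / 100) (P Q : ℕ) :
    |gt1_ny U U' A A' Q - gt1_ny U U' A A' P| ≤ 1 / 50 := by
  have hb : ∀ l, c < gt1_ny U U' A A' l ∧ gt1_ny U U' A A' l < c + 1 / 100 := by
    intro l
    unfold gt1_ny
    split_ifs <;> constructor <;> assumption
  have q1 := hb P
  have q2 := hb Q
  rw [abs_le]
  constructor <;> linarith [q1.1, q1.2, q2.1, q2.2]

theorem st_GT1 : ST_GT1 := by
  intro k U U' A A' e b h hb p q r h1 h2 h3 h4 h5
  have hc : 1 ≤ 2 - cen k ∧ 2 - cen k ≤ 2 := by cases k <;> norm_num [cen]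
  obtain ⟨U0, U1, U2, A0, A1, A2, heq, gap, e0, e1⟩ := h
  generalize hcc : 2 - cen k = c at *
  have hU0 : (0 : ℝ) < U := by linarith [hc.1]
  have hA0 : (0 : ℝ) < A := by linarith [hc.1]
  have hrU : U' = U' / U * U := by field_simp
  have hrA : A' = U' / U * A := by
    field_simp
    linarith
  have hr1 : 1 < U' / U := by
    rw [lt_div_iff₀ hU0]
    linarith
  have hr2 : U' / U - 1 ≤ 1 / 100 := by
    have : U' / U ≤ 101 / 100 := by
      rw [div_le_iff₀ hU0]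
      linarith [hc.1]
    linarith
  have hD : |A - U| ≤ 1 / 100 := by
    rw [abs_le]
    constructor <;> linarith
  have hprod : (U' - U) * |A - U| ≤ 1 / 100 * (1 / 100) :=
    mul_le_mul (by linarith) hD (abs_nonneg _) (by norm_num)
  have he : e ≤ 1 / 100000 := by linarith
  have hbig : 9 * e < (U' / U - 1) * |A - U| := by
    have h6 : (U' / U - 1) * |A - U| * U = (U' - U) * |A - U| := by
      field_simp
    have h7 : (U' / U - 1) * |A - U| * U ≤ (U' / U - 1) * |A - U| * 3 :=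
      mul_le_mul_of_nonneg_left (by linarith [hc.2])
        (mul_nonneg (by linarith) (abs_nonneg _))
    linarith
  obtain ⟨a1, hx1, ha1⟩ := gt1_x U U' e e0 p (by omega)
  obtain ⟨a2, hx2, ha2⟩ := gt1_x U U' e e0 q (by omega)
  obtain ⟨a3, hx3, ha3⟩ := gt1_x U U' e e0 r (by omega)
  obtain ⟨b1, hy1, hb1⟩ := gt1_y k U U' A A' e e0 p (by omega)
  obtain ⟨b2, hy2, hb2⟩ := gt1_y k U U' A A' e e0 q (by omega)
  obtain ⟨b3, hy3, hb3⟩ := gt1_y k U U' A A' e e0 r (by omega)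
  have hp := gt1_pert e _ _ _ _ _ _ a1 a2 a3 b1 b2 b3 e0 he
    (gt1_dx _ hr1 hr2 (p / 2) (q / 2)) (gt1_dx _ hr1 hr2 (p / 2) (r / 2))
    (gt1_dy U U' A A' c U0 (by linarith) (by linarith) U2 A0 (by linarith) (by linarith) A2
      (p / 2) (q / 2))
    (gt1_dy U U' A A' c U0 (by linarith) (by linarith) U2 A0 (by linarith) (by linarith) A2
      (p / 2) (r / 2)) ha1 ha2 ha3 hb1 hb2 hb3
  rw [hx1, hx2, hx3, hy1, hy2, hy3]
  have hn := gt1_nom U U' A A' (U' / U) b hr1 hrU hrA hb (p / 2) (q / 2) (r / 2)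
    (by omega) (by omega) (by omega)
  rw [abs_le] at hp
  obtain ⟨p1, p2⟩ := hp
  have hsb : ∀ t : Bool, sb t = 1 ∨ sb t = -1 := by
    intro t
    cases t <;> simp [sb]
  rcases hsb (tb (p / 2) (q / 2) (r / 2) b) with h | h
  · rw [h] at hn ⊢
    linarith
  · rw [h] at hn ⊢
    linarith

end Pool.Agent.Helper54.SP
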